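import Mathlib

/-!
# MP_e7d22a_nt: unions of at least two rotated triangular lattices are almost surely dense forests

The plane is `ℂ`, and the rotation by the angle `θ` (a point of `ℝ / 2πℤ`) is the multiplication by
`e^{iθ}`.  For every `k ≥ 2` and almost every choice of the angles and of the translations the set
`TBG k x θ` is a dense forest; so the answer to Q1 is yes.
-/

set_option autoImplicit false

open MeasureTheory Set Filter Topology

namespace Pool.Agent.Results.MP_e7d22a_nt.TwoLayers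

noncomputable section

/-- `2 π > 0` -/
instance twoPiPos : Fact (0 < 2 * Real.pi) := ⟨Real.two_pi_pos⟩

/-- the triangular lattice `ℤ (1, 0) + ℤ (1/2, √3/2)` -/
def Lam : Set ℂ := {z | ∃ m n : ℤ, z = m + n * (1 / 2 + (Real.sqrt 3 / 2 : ℝ) * Complex.I)}

/-- the rotation by the angle `θ ∈ ℝ / 2πℤ` -/
def rot (θ : AddCircle (2 * Real.pi)) (z : ℂ) : ℂ := (AddCircle.toCircle θ : ℂ) * z

/-- the union of the `k` rotated and translated lattices -/
def TBG (k : ℕ) (x : Fin k → ℂ) (θ : Fin k → AddCircle (2 * Real.pi)) : Set ℂ :=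
  ⋃ i, (fun z => rot (θ i) z + x i) '' Lam

/-- dense forests in the plane: for some function `V`, every segment of length `V ε` contains a point at
distance at most `ε` from `Y` -/
def DenseForest (Y : Set ℂ) : Prop :=
  ∃ V : ℝ → ℝ, ∀ ε ∈ Ioo (0 : ℝ) 1, 0 < V ε ∧
    ∀ a b : ℂ, dist a b = V ε → ∃ p ∈ segment ℝ a b, ∃ y ∈ Y, dist p y ≤ ε

/-- `rot θ` is the multiplication by `e^{iθ}` -/
theorem rot_coe (t : ℝ) (z : ℂ) : rot (t : AddCircle (2 * Real.pi)) z = Complex.exp (t * Complex.I) * z := by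
  unfold rot
  rw [AddCircle.toCircle_apply_mk, Circle.coe_exp]
  congr 2
  rw [div_self Real.two_pi_pos.ne', one_mul]

theorem norm_rot (θ : AddCircle (2 * Real.pi)) (z : ℂ) : ‖rot θ z‖ = ‖z‖ := by
  unfold rot
  rw [norm_mul, Circle.norm_coe, one_mul]

/-- the second generator -/
def om : ℂ := 1 / 2 + (Real.sqrt 3 / 2 : ℝ) * Complex.I

theorem om_re : om.re = 1 / 2 := by simp [om]

theorem om_im : om.im = Real.sqrt 3 / 2 := by simp [om]

theorem sqrt3_pos : 0 < Real.sqrt 3 / 2 := by positivity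

theorem coords (z : ℂ) : ∃ a b : ℝ, z = a + b * om := by
  refine ⟨z.re - z.im / (Real.sqrt 3 / 2) / 2, z.im / (Real.sqrt 3 / 2), ?_⟩
  have h := sqrt3_pos.ne'
  apply Complex.ext
  · simp only [Complex.add_re, Complex.ofReal_re, Complex.re_ofReal_mul, om_re]
    ring
  · simp only [Complex.add_im, Complex.ofReal_im, Complex.im_ofReal_mul, om_im]
    rw [div_mul_cancel₀ _ h, zero_add]

theorem om_norm_le : ‖om‖ ≤ 1 := by
  rw [Complex.norm_def, Complex.normSq_apply, om_re, om_im]
  have h : Real.sqrt 3 / 2 * (Real.sqrt 3 / 2) = 3 / 4 := by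
    have := Real.mul_self_sqrt (show (0:ℝ) ≤ 3 by norm_num)
    linear_combination this / 4
  rw [h]
  norm_num

/-- every point of the plane has distance at most `2` from the lattice -/
theorem covering (z : ℂ) : ∃ v ∈ Lam, ‖z - v‖ ≤ 2 := by
  obtain ⟨a, b, rfl⟩ := coords z
  refine ⟨(⌊a⌋ : ℂ) + (⌊b⌋ : ℂ) * om, ⟨⌊a⌋, ⌊b⌋, rfl⟩, ?_⟩
  have e : (a : ℂ) + b * om - ((⌊a⌋ : ℂ) + (⌊b⌋ : ℂ) * om) =
      ((Int.fract a : ℝ) : ℂ) + ((Int.fract b : ℝ) : ℂ) * om := by
    rw [← Int.self_sub_floor, ← Int.self_sub_floor]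
    push_cast
    ring
  rw [e]
  refine (norm_add_le _ _).trans ?_
  rw [norm_mul, Complex.norm_real, Complex.norm_real, Real.norm_eq_abs, Real.norm_eq_abs,
    Int.abs_fract, Int.abs_fract]
  have h1 := (Int.fract_lt_one a).le
  have h2 := (Int.fract_lt_one b).le
  have h3 := Int.fract_nonneg b
  nlinarith [om_norm_le, norm_nonneg om]

/-- a line which stays away from the lattice is parallel to a lattice vector -/
theorem line_near (u d : ℂ) (ε : ℝ) (hε : 0 < ε) (h : ∀ (t : ℝ), ∀ v ∈ Lam, ε ≤ ‖d + t * u - v‖) :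
    ∃ v ∈ Lam, v ≠ 0 ∧ ∃ s : ℝ, u = s * v := by
  obtain ⟨ua, ub, hu⟩ := coords u
  obtain ⟨da, db, hd⟩ := coords d
  have him : ∀ m n : ℤ, (m : ℂ) + (n : ℂ) * om = 0 → n = 0 ∧ m = 0 := by
    intro m n h
    have h1 := congrArg Complex.im h
    simp only [Complex.add_im, Complex.intCast_im, Complex.mul_im, Complex.intCast_re, om_im,
      zero_mul, add_zero, zero_add, Complex.zero_im] at h1
    have h2 : (n : ℝ) = 0 := by
      rcases mul_eq_zero.1 h1 with h2 | h2
      · exact h2
      · exact absurd h2 sqrt3_pos.ne'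
    have h3 : n = 0 := by exact_mod_cast h2
    refine ⟨h3, ?_⟩
    rw [h3] at h
    simpa using h
  by_cases hub : ub = 0
  · refine ⟨1, ⟨1, 0, by simp⟩, one_ne_zero, ua, ?_⟩
    rw [hu, hub]
    simp
  by_cases hr : Irrational (ua / ub)
  · exfalso
    have hdense := (dense_addSubgroupClosure_pair_iff (a := ua / ub) (b := 1)).2 (by rwa [div_one])
    obtain ⟨g, hg1, hg2⟩ := Metric.dense_iff.1 hdense (-(da - db * (ua / ub))) ε hε
    rw [SetLike.mem_coe, AddSubgroup.mem_closure_pair] at hg2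
    obtain ⟨n, m, hnm⟩ := hg2
    have h1 := h ((n - db) / ub) ((-m : ℤ) + (n : ℂ) * om) ⟨-m, n, rfl⟩
    have e : d + ((((n : ℝ) - db) / ub : ℝ) : ℂ) * u - (((-m : ℤ) : ℂ) + (n : ℂ) * om) =
        ((da - db * (ua / ub) + (n * (ua / ub) + m) : ℝ) : ℂ) := by
      rw [hu, hd]
      have : (ub : ℂ) ≠ 0 := by exact_mod_cast hub
      push_cast
      field_simp
      ring
    rw [e, Complex.norm_real, Real.norm_eq_abs] at h1
    rw [Metric.mem_ball, Real.dist_eq, ← hnm] at hg1
    have e2 : n • (ua / ub) + m • (1 : ℝ) - -(da - db * (ua / ub)) =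
        da - db * (ua / ub) + (n * (ua / ub) + m) := by
      rw [zsmul_eq_mul, zsmul_eq_mul]
      ring
    rw [e2] at hg1
    linarith
  · unfold Irrational at hr
    push Not at hr
    obtain ⟨r, hr⟩ := hr
    refine ⟨(r.num : ℂ) + ((r.den : ℤ) : ℂ) * om, ⟨r.num, r.den, rfl⟩, ?_, ub / r.den, ?_⟩
    · intro h0
      have := (him _ _ h0).1
      exact r.den_nz (by exact_mod_cast this)
    · have hden : (r.den : ℂ) ≠ 0 := by exact_mod_cast r.den_nz
      have h1 : ua = ub * (r.num / r.den) := by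
        rw [← Rat.cast_def, hr]
        field_simp
      rw [hu, h1]
      push_cast
      field_simp

/-- the same for a rotated lattice -/
theorem line_near_rot (θ : AddCircle (2 * Real.pi)) (u d : ℂ) (ε : ℝ) (hε : 0 < ε)
    (h : ∀ (t : ℝ), ∀ v ∈ Lam, ε ≤ ‖d + t * u - rot θ v‖) :
    ∃ v ∈ Lam, v ≠ 0 ∧ ∃ s : ℝ, u = s * rot θ v := by
  obtain ⟨v, hv, hv0, s, hs⟩ := line_near (rot (-θ) u) (rot (-θ) d) ε hε (fun t v hv => by
    have h1 := h t v hv
    have h2 : ‖rot (-θ) (d + t * u - rot θ v)‖ = ‖d + t * u - rot θ v‖ := norm_rot _ _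
    rw [← h2] at h1
    refine h1.trans (le_of_eq ?_)
    congr 1
    unfold rot
    rw [AddCircle.toCircle_neg, Circle.coe_inv]
    have := Circle.coe_ne_zero (AddCircle.toCircle θ)
    field_simp)
  refine ⟨v, hv, hv0, s, ?_⟩
  have h3 : rot θ (rot (-θ) u) = u := by
    unfold rot
    rw [AddCircle.toCircle_neg, Circle.coe_inv]
    have := Circle.coe_ne_zero (AddCircle.toCircle θ)
    field_simp
  rw [← h3, hs]
  unfold rot
  ring

/-- the exceptional differences of two angles -/
def Exc : Set (AddCircle (2 * Real.pi)) :=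
  {θ | ∃ v ∈ Lam, ∃ w ∈ Lam, v ≠ 0 ∧ w ≠ 0 ∧ ∃ s : ℝ, rot θ v = s * w}

theorem exc_countable : Exc.Countable := by
  have hsub : Exc ⊆ ⋃ q : (ℤ × ℤ) × (ℤ × ℤ) × Bool, {θ | (AddCircle.toCircle θ : ℂ) =
      (if q.2.2 then 1 else -1) * (‖(q.1.1 : ℂ) + q.1.2 * om‖ / ‖(q.2.1.1 : ℂ) + q.2.1.2 * om‖ : ℝ) *
        (((q.2.1.1 : ℂ) + q.2.1.2 * om) / ((q.1.1 : ℂ) + q.1.2 * om))} := by
    rintro θ ⟨v, ⟨m, n, hv⟩, w, ⟨m', n', hw⟩, hv0, hw0, s, hs⟩
    have hv' : v = (m : ℂ) + n * om := hv
    have hw' : w = (m' : ℂ) + n' * om := hw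
    have hn : ‖v‖ = |s| * ‖w‖ := by
      rw [← norm_rot θ v, hs, norm_mul, Complex.norm_real, Real.norm_eq_abs]
    have hwn : ‖w‖ ≠ 0 := norm_ne_zero_iff.2 hw0
    have habs : |s| = ‖v‖ / ‖w‖ := by rw [hn]; field_simp
    have hθ : (AddCircle.toCircle θ : ℂ) = s * (w / v) := by
      unfold rot at hs
      field_simp
      exact hs
    rw [mem_iUnion]
    rcases le_total 0 s with h0 | h0
    · refine ⟨((m, n), (m', n'), true), ?_⟩
      show (AddCircle.toCircle θ : ℂ) = _
      simp only [if_true, ← hv', ← hw']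
      rw [← habs, abs_of_nonneg h0, hθ, one_mul]
    · refine ⟨((m, n), (m', n'), false), ?_⟩
      show (AddCircle.toCircle θ : ℂ) = _
      simp only [Bool.false_eq_true, if_false, ← hv', ← hw']
      rw [← habs, abs_of_nonpos h0, hθ]
      push_cast
      ring
  refine Set.Countable.mono hsub (countable_iUnion fun q => Set.Subsingleton.countable ?_)
  intro θ hθ θ' hθ'
  simp only [mem_ofPred_eq] at hθ hθ'
  apply AddCircle.injective_toCircle Real.two_pi_pos.ne'
  exact Subtype.ext (hθ.trans hθ'.symm)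

/-- two lattices whose angles do not have an exceptional difference form a dense forest -/
theorem two_layers (θ θ' : AddCircle (2 * Real.pi)) (x x' : ℂ) (h : θ - θ' ∉ Exc) (Y : Set ℂ)
    (hY : ∀ v ∈ Lam, rot θ v + x ∈ Y) (hY' : ∀ v ∈ Lam, rot θ' v + x' ∈ Y) : DenseForest Y := by
  have key : ∀ ε : ℝ, ε ∈ Ioo (0 : ℝ) 1 → ∃ V : ℝ, 0 < V ∧
      ∀ a b : ℂ, dist a b = V → ∃ p ∈ segment ℝ a b, ∃ y ∈ Y, dist p y ≤ ε := by
    intro ε hε
    by_contra hcon
    push Not at hcon
    have hseq : ∀ n : ℕ, ∃ c u : ℂ, ‖u‖ = 1 ∧ ∀ t : ℝ, |t| ≤ (n + 1) / 2 → ∀ y ∈ Y, ε < dist (c + t * u) y := by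
      intro n
      obtain ⟨a, b, hab, h1⟩ := hcon (n + 1) (by positivity)
      have hn : (0 : ℝ) < n + 1 := by positivity
      refine ⟨(a + b) / 2, (b - a) / ((n + 1 : ℝ) : ℂ), ?_, ?_⟩
      · rw [norm_div, Complex.norm_real, Real.norm_eq_abs, abs_of_pos hn, ← dist_eq_norm, dist_comm, hab]
        exact div_self hn.ne'
      · intro t ht y hy
        apply h1 _ _ y hy
        rw [abs_le] at ht
        refine ⟨1 / 2 - t / (n + 1), 1 / 2 + t / (n + 1), ?_, ?_, by ring, ?_⟩
        · have : t / (n + 1) ≤ 1 / 2 := by rw [div_le_iff₀ hn]; linarith [ht.2]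
          linarith
        · have : -(1 / 2) ≤ t / (n + 1) := by rw [le_div_iff₀ hn]; linarith [ht.1]
          linarith
        · have : ((n + 1 : ℝ) : ℂ) ≠ 0 := by exact_mod_cast hn.ne'
          rw [Complex.real_smul, Complex.real_smul]
          push_cast at this ⊢
          field_simp
          ring
    choose c u hu hc using hseq
    -- a lattice point near the middle of the segment
    have hnear : ∀ (φ : AddCircle (2 * Real.pi)) (z : ℂ) (n : ℕ), ∃ v ∈ Lam, ‖c n - z - rot φ v‖ ≤ 2 := by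
      intro φ z n
      obtain ⟨v, hv, h2⟩ := covering (rot (-φ) (c n - z))
      refine ⟨v, hv, ?_⟩
      rw [← norm_rot (-φ)]
      refine le_trans (le_of_eq ?_) h2
      congr 1
      unfold rot
      rw [AddCircle.toCircle_neg, Circle.coe_inv]
      have := Circle.coe_ne_zero (AddCircle.toCircle φ)
      field_simp
    choose v hv hvn using hnear θ x
    choose w hw hwn using hnear θ' x'
    obtain ⟨q, -, φ, hφ, hlim⟩ := tendsto_subseq_of_bounded
      (s := Metric.closedBall (0 : ℂ × ℂ × ℂ) 2) Metric.isBounded_closedBall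
      (x := fun n => (u n, c n - x - rot θ (v n), c n - x' - rot θ' (w n))) (fun n => by
        rw [mem_closedBall_zero_iff, Prod.norm_def, Prod.norm_def]
        refine max_le ?_ (max_le (hvn n) (hwn n))
        show ‖u n‖ ≤ 2
        rw [hu n]; norm_num)
    obtain ⟨u0, d0, d0'⟩ := q
    have l1 : Tendsto (fun n => u (φ n)) atTop (𝓝 u0) := (continuous_fst.tendsto _).comp hlim
    have l2 : Tendsto (fun n => c (φ n) - x - rot θ (v (φ n))) atTop (𝓝 d0) :=
      ((continuous_fst.comp continuous_snd).tendsto _).comp hlim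
    have l3 : Tendsto (fun n => c (φ n) - x' - rot θ' (w (φ n))) atTop (𝓝 d0') :=
      ((continuous_snd.comp continuous_snd).tendsto _).comp hlim
    have hu0 : ‖u0‖ = 1 := by
      have h3 := l1.norm
      simp only [hu] at h3
      exact tendsto_nhds_unique h3 tendsto_const_nhds
    have hLam : ∀ v ∈ Lam, ∀ w ∈ Lam, v + w ∈ Lam := by
      rintro _ ⟨m, n, rfl⟩ _ ⟨m', n', rfl⟩
      exact ⟨m + m', n + n', by push_cast; ring⟩
    -- the limit line avoids the lattices
    have hline : ∀ (φ' : AddCircle (2 * Real.pi)) (z : ℂ) (g : ℕ → ℂ) (d : ℂ),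
        (∀ v ∈ Lam, rot φ' v + z ∈ Y) → (∀ n, g n ∈ Lam) →
        Tendsto (fun n => c (φ n) - z - rot φ' (g (φ n))) atTop (𝓝 d) →
        ∀ (t : ℝ), ∀ v ∈ Lam, ε ≤ ‖d + t * u0 - rot φ' v‖ := by
      intro φ' z g d hz hg hl t v hv
      have h4 : Tendsto (fun n => ‖(c (φ n) - z - rot φ' (g (φ n))) + t * u (φ n) - rot φ' v‖) atTop
          (𝓝 ‖d + t * u0 - rot φ' v‖) :=
        ((hl.add (l1.const_mul _)).sub_const _).norm
      refine ge_of_tendsto h4 ?_
      obtain ⟨N, hN⟩ := exists_nat_ge (2 * |t|)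
      filter_upwards [eventually_ge_atTop N] with n hn
      have h5 : |t| ≤ ((φ n : ℕ) + 1) / 2 := by
        have h6 : (N : ℝ) ≤ φ n := by exact_mod_cast hn.trans (hφ.id_le n)
        linarith
      have h7 := hc (φ n) t h5 (rot φ' (g (φ n) + v) + z) (hz _ (hLam _ (hg _) _ hv))
      rw [dist_eq_norm] at h7
      refine h7.le.trans (le_of_eq ?_)
      congr 1
      unfold rot
      ring
    obtain ⟨a, ha, ha0, s, hs⟩ := line_near_rot θ u0 d0 ε hε.1 (hline θ x v d0 hY hv l2)
    obtain ⟨b, hb, hb0, s', hs'⟩ := line_near_rot θ' u0 d0' ε hε.1 (hline θ' x' w d0' hY' hw l3)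
    apply h
    refine ⟨a, ha, b, hb, ha0, hb0, s' / s, ?_⟩
    have hs0 : s ≠ 0 := by
      rintro rfl
      rw [hs] at hu0
      simp at hu0
    have hs0' : (s : ℂ) ≠ 0 := by exact_mod_cast hs0
    have h8 : (s : ℂ) * rot θ a = s' * rot θ' b := by rw [← hs, ← hs']
    unfold rot at h8 ⊢
    rw [sub_eq_add_neg, AddCircle.toCircle_add, AddCircle.toCircle_neg, Circle.coe_mul, Circle.coe_inv]
    have h9 := Circle.coe_ne_zero (AddCircle.toCircle θ')
    push_cast
    field_simp
    linear_combination h8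
  choose! V hV using key
  exact ⟨V, hV⟩

/-- singletons of the circle are null sets -/
theorem exc_null : volume Exc = 0 := by
  have h1 : (𝓝[≠] (0 : AddCircle (2 * Real.pi))).NeBot := by
    have ht : Tendsto (fun t : ℝ => (t : AddCircle (2 * Real.pi))) (𝓝[>] 0) (𝓝[≠] 0) := by
      refine tendsto_nhdsWithin_iff.2 ⟨?_, ?_⟩
      · have h2 := (AddCircle.continuous_mk' (2 * Real.pi)).tendsto 0
        exact (h2.mono_left nhdsWithin_le_nhds)
      · filter_upwards [Ioo_mem_nhdsGT Real.two_pi_pos] with t ht h0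
        rw [mem_singleton_iff, AddCircle.coe_eq_zero_of_pos_iff _ Real.two_pi_pos ht.1] at h0
        obtain ⟨m, hm⟩ := h0
        have h3 := ht.1
        have h4 := ht.2
        rw [← hm, nsmul_eq_mul] at h3 h4
        have h5 := Real.two_pi_pos
        have h6 : (m : ℝ) < 1 := by
          by_contra h7
          push Not at h7
          nlinarith
        have h7 : m = 0 := by
          have : m < 1 := by exact_mod_cast h6
          omega
        rw [h7] at h3
        simp at h3
    exact ht.neBot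
  exact exc_countable.measure_zero _

/-- **Answer to Q1: yes.** For every `k ≥ 2` and almost every choice of the angles `θ` and the translations `x`
the union of the `k` rotated and translated triangular lattices is a dense forest. -/
theorem result : ∀ k : ℕ, 2 ≤ k →
    ∀ᵐ p : (Fin k → AddCircle (2 * Real.pi)) × (Fin k → ℂ), DenseForest (TBG k p.2 p.1) := by
  intro k hk
  obtain ⟨n, rfl⟩ : ∃ n, k = n + 2 := ⟨k - 2, by omega⟩
  have h1 : ∀ᵐ θ : Fin (n + 2) → AddCircle (2 * Real.pi), θ 0 - θ 1 ∉ Exc := by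
    have hq : Measure.QuasiMeasurePreserving (fun θ : Fin (n + 2) → AddCircle (2 * Real.pi) => θ 0 - θ 1)
        volume volume := by
      have e1 := (volume_preserving_piFinSuccAbove (fun _ : Fin (n + 2) => AddCircle (2 * Real.pi)) 0).quasiMeasurePreserving
      have e2 : Measure.QuasiMeasurePreserving (fun q : AddCircle (2 * Real.pi) ×
          (Fin (n + 1) → AddCircle (2 * Real.pi)) => q.1 - q.2 0) (volume.prod volume) volume :=
        QuasiMeasurePreserving.prod_of_left (by fun_prop)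
          (Eventually.of_forall fun y => (measurePreserving_sub_right volume (y 0)).quasiMeasurePreserving)
      exact e2.comp e1
    exact hq.ae (compl_mem_ae_iff.2 exc_null)
  have h2 : ∀ᵐ p : (Fin (n + 2) → AddCircle (2 * Real.pi)) × (Fin (n + 2) → ℂ), p.1 0 - p.1 1 ∉ Exc :=
    Measure.quasiMeasurePreserving_fst.ae h1
  filter_upwards [h2] with p hp
  refine two_layers (p.1 0) (p.1 1) (p.2 0) (p.2 1) hp _ ?_ ?_
  · intro v hv
    exact mem_iUnion.2 ⟨0, v, hv, rfl⟩
  · intro v hv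
    exact mem_iUnion.2 ⟨1, v, hv, rfl⟩

end

end Pool.Agent.Results.MP_e7d22a_nt.TwoLayers
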